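import Pool.Agent.Lib.MP_3519bc_nt.Ins.Main

/-! Large positive and large negative values of the cosine series, for `x` to `∞` and to `-∞`.

Let `Ψ(x) = ∑ 2 / √n * cos (π ((3 n - 1) / 4 - x / n))`, the limit of the partial sums. There is
`c > 0` such that for each of the four choices of signs `a, b = 1, -1` there are arbitrarily large
`x` with `b Ψ(a x) ≥ exp (c √(log x) / log log x)`. So
`Ψ(x) = Ω± (exp (c √(log |x|) / log log |x|))` for `x` to `∞` and for `x` to `-∞`, and `Ψ` is not
`O((log |x|) ^ k)` for any `k` in any of the two directions, not even from one side.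

Idea of the proof. Let `M` be the product of the primes `p` with `Y < p ≤ 2 Y` in the class `r` mod 8,
where `r = 3` for `b = 1` and `r = 7` for `b = -1`, and let `x = 2 M t` with `M ^ 2 ≤ t < 2 M ^ 2`. In the
mean over `t` only the terms with `n ∣ M` survive, up to `O(1)`, since for the others the sum of
`cos (.. - 2 π a M t / n)` over `t` is a short geometric sum, and the tail `n ≥ M ^ 2` is `O(1)` for
each `x`. A divisor `n` of `M` is `1` mod 8, then its term is 0, or `r` mod 8, then its term times `b`
is `2 / √n`. So the mean of `b Ψ(a x)` is at least `∏ (1 + 1 / √p) - O(1)`, which is at least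
`exp (c √Y / log Y)` by the prime number theorem in arithmetic progressions, and `log x ≤ 4 Y`. -/

namespace Pool.Agent.Results.MP_3519bc_nt.SignedLargeValues

/-- Large values of both signs in both directions. -/
theorem result : ∃ c : ℝ, 0 < c ∧ ∀ a b : ℝ, (a = 1 ∨ a = -1) → (b = 1 ∨ b = -1) → ∀ X : ℝ,
    ∃ x : ℝ, X ≤ x ∧ ∃ S : ℝ,
      Filter.Tendsto
        (fun N : ℕ => ∑ n ∈ Finset.Icc 1 N,
          2 / Real.sqrt (n : ℝ) *
            Real.cos (Real.pi * ((3 * (n : ℝ) - 1) / 4 - a * x / (n : ℝ))))
        Filter.atTop (nhds S) ∧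
      Real.exp (c * (Real.sqrt (Real.log x) / Real.log (Real.log x))) ≤ b * S :=
  ⟨1 / 256, by norm_num, fun _ _ ha hb X => PsiOm.main ha hb X⟩

end Pool.Agent.Results.MP_3519bc_nt.SignedLargeValues
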